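import Mathlib

set_option autoImplicit false

namespace Pool.Agent.Helper40.Kissing

open Module

/-- A ball touches at most `5 ^ dim` pairwise non-overlapping balls that are at least as large. -/
theorem kissing {E : Type*} [NormedAddCommGroup E] [InnerProductSpace ℝ E]
    [FiniteDimensional ℝ E] {ι : Type*} (x0 : E) (r0 : ℝ) (hr0 : 0 < r0) (s : Finset ι)
    (x : ι → E) (r : ι → ℝ) (h1 : ∀ i ∈ s, r0 ≤ r i) (h2 : ∀ i ∈ s, dist x0 (x i) = r0 + r i)
    (h3 : ∀ i ∈ s, ∀ j ∈ s, i ≠ j → r i + r j ≤ dist (x i) (x j)) :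
    s.card ≤ 5 ^ finrank ℝ E := by
  classical
  let n : ι → E := fun i => (r0 + r i)⁻¹ • (x i - x0)
  have hpos : ∀ i ∈ s, 0 < r0 + r i := fun i hi => by linarith [h1 i hi]
  have hxn : ∀ i ∈ s, x i - x0 = (r0 + r i) • n i := by
    intro i hi
    simp only [n]
    rw [smul_smul, mul_inv_cancel₀ (hpos i hi).ne', one_smul]
  have hn : ∀ i ∈ s, ‖n i‖ = 1 := by
    intro i hi
    simp only [n]
    rw [norm_smul, norm_inv, Real.norm_eq_abs, abs_of_pos (hpos i hi), ← dist_eq_norm, dist_comm,
      h2 i hi, inv_mul_cancel₀ (hpos i hi).ne']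
  have hsep : ∀ i ∈ s, ∀ j ∈ s, i ≠ j → 1 ≤ ‖n i - n j‖ := by
    intro i hi j hj hij
    set a := r0 + r i with ha
    set b := r0 + r j with hb
    have ha0 : 2 * r0 ≤ a := by linarith [h1 i hi]
    have hb0 : 2 * r0 ≤ b := by linarith [h1 j hj]
    set c := inner ℝ (n i) (n j) with hc
    have e1 : dist (x i) (x j) ^ 2 = a ^ 2 + b ^ 2 - 2 * (a * b) * c := by
      have : x i - x j = a • n i - b • n j := by
        rw [ha, hb, ← hxn i hi, ← hxn j hj]; abel
      rw [dist_eq_norm, this, norm_sub_sq_real, norm_smul a (n i), norm_smul b (n j), inner_smul_left,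
        inner_smul_right, hn i hi, hn j hj, Real.norm_eq_abs, Real.norm_eq_abs]
      simp only [mul_one, sq_abs, conj_trivial]
      ring
    have e2 : (a + b - 2 * r0) ^ 2 ≤ dist (x i) (x j) ^ 2 := by
      apply pow_le_pow_left₀ (by linarith)
      have := h3 i hi j hj hij
      linarith
    have e3 : c ≤ 1 / 2 := by
      by_contra hcon
      rw [not_le] at hcon
      have hapos : 0 < a := by linarith
      have hbpos : 0 < b := by linarith
      have hab : 0 < a * b := mul_pos hapos hbpos
      rcases le_total a b with hle | hle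
      · have : b ^ 2 ≤ (a + b - 2 * r0) ^ 2 := by
          apply pow_le_pow_left₀ hbpos.le; linarith
        nlinarith
      · have : a ^ 2 ≤ (a + b - 2 * r0) ^ 2 := by
          apply pow_le_pow_left₀ hapos.le; linarith
        nlinarith
    have e4 : ‖n i - n j‖ ^ 2 = 2 - 2 * c := by
      rw [norm_sub_sq_real, hn i hi, hn j hj]; ring
    by_contra hcon
    rw [not_le] at hcon
    have : ‖n i - n j‖ ^ 2 < 1 := by
      have h0 := norm_nonneg (n i - n j)
      nlinarith
    linarith
  have hinj : Set.InjOn n s := by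
    intro i hi j hj hij
    by_contra hne
    have := hsep i hi j hj hne
    rw [hij, sub_self, norm_zero] at this
    linarith
  rw [← Finset.card_image_of_injOn hinj]
  apply Besicovitch.card_le_of_separated
  · intro c hc
    obtain ⟨i, hi, rfl⟩ := Finset.mem_image.1 hc
    rw [hn i hi]; norm_num
  · intro c hc d hd hcd
    obtain ⟨i, hi, rfl⟩ := Finset.mem_image.1 hc
    obtain ⟨j, hj, rfl⟩ := Finset.mem_image.1 hd
    exact hsep i hi j hj (fun h => hcd (by rw [h]))

end Pool.Agent.Helper40.Kissing
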