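import Mathlib
import Pool.Agent.Helper40.Kissing

set_option autoImplicit false

namespace Pool.Agent.Helper40.Layered

open Finset

/-- vertices: layer `i` has `i + 1` vertices -/
abbrev Vtx : Type := Σ i : ℕ, Fin (i + 1)

/-- complete bipartite graph between consecutive layers -/
def Gr : SimpleGraph Vtx where
  Adj u v := u.1 + 1 = v.1 ∨ v.1 + 1 = u.1
  symm := ⟨fun _ _ h => h.symm⟩
  loopless := ⟨fun u h => by omega⟩

theorem adj_iff (u v : Vtx) : Gr.Adj u v ↔ u.1 + 1 = v.1 ∨ v.1 + 1 = u.1 := Iff.rfl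

/-- all vertices in layers `≤ N` -/
def box (N : ℕ) : Finset Vtx := (Finset.range (N + 1)).sigma (fun _ => Finset.univ)

theorem mem_box {N : ℕ} {v : Vtx} : v ∈ box N ↔ v.1 ≤ N := by
  simp [box]

def root : Vtx := ⟨0, 0⟩

theorem reach (i : ℕ) : ∀ a : Fin (i + 1), Gr.Reachable root ⟨i, a⟩ := by
  induction i with
  | zero =>
    intro a
    have : a = 0 := Subsingleton.elim (α := Fin 1) a 0
    subst this
    exact SimpleGraph.Reachable.refl _
  | succ i ih =>
    intro a
    refine (ih 0).trans (SimpleGraph.Adj.reachable ?_)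
    rw [adj_iff]
    left
    rfl

theorem connected : Gr.Connected := by
  rw [SimpleGraph.connected_iff]
  refine ⟨?_, ⟨root⟩⟩
  intro u v
  exact (reach u.1 u.2).symm.trans (reach v.1 v.2)

theorem locFin (v : Vtx) : (Gr.neighborSet v).Finite := by
  apply (box (v.1 + 1)).finite_toSet.subset
  intro w hw
  rw [SimpleGraph.mem_neighborSet, adj_iff] at hw
  rw [Finset.mem_coe, mem_box]
  omega

/-! ### transience -/

theorem two_layer (m n : ℕ) (x : Fin m → ℝ) (y : Fin n → ℝ) :
    ((n : ℝ) * ∑ a, x a - (m : ℝ) * ∑ b, y b) ^ 2 ≤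
      (m : ℝ) * n * ∑ p : Fin m × Fin n, (x p.1 - y p.2) ^ 2 := by
  have h1 : (n : ℝ) * ∑ a, x a - (m : ℝ) * ∑ b, y b = ∑ p : Fin m × Fin n, (x p.1 - y p.2) := by
    rw [Fintype.sum_prod_type]
    simp only [Finset.sum_sub_distrib, Finset.sum_const, Finset.card_univ, Fintype.card_fin,
      nsmul_eq_mul, Finset.mul_sum]
  rw [h1]
  have h2 := sq_sum_le_card_mul_sum_sq (s := (Finset.univ : Finset (Fin m × Fin n)))
    (f := fun p => x p.1 - y p.2)
  simpa using h2

/-- ordered pair of adjacent vertices from data -/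
def edge (q : Σ i : ℕ, Fin (i + 1) × Fin (i + 1 + 1)) : {p : Vtx × Vtx // Gr.Adj p.1 p.2} :=
  ⟨(⟨q.1, q.2.1⟩, ⟨q.1 + 1, q.2.2⟩), Or.inl rfl⟩

theorem edge_inj : Function.Injective edge := by
  rintro ⟨i, a, b⟩ ⟨j, c, d⟩ h
  have h1 : (⟨i, a⟩ : Vtx) = ⟨j, c⟩ := congrArg (fun p => p.1.1) h
  have h2 : (⟨i + 1, b⟩ : Vtx) = ⟨j + 1, d⟩ := congrArg (fun p => p.1.2) h
  cases h1
  have h3 := eq_of_heq (Sigma.mk.inj h2).2
  rw [h3]

theorem energy_lower (f : Vtx → ℝ) (hf : (Function.support f).Finite) (h1 : f root = 1) :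
    1 ≤ ∑' p : {p : Vtx × Vtx // Gr.Adj p.1 p.2}, (f p.1.1 - f p.1.2) ^ 2 := by
  classical
  -- choose `N` beyond the support
  obtain ⟨N, hN⟩ : ∃ N : ℕ, ∀ v : Vtx, N ≤ v.1 → f v = 0 := by
    obtain ⟨N, hN⟩ := (hf.image (fun v => v.1)).bddAbove
    refine ⟨N + 1, fun v hv => ?_⟩
    by_contra hne
    have := hN ⟨v, hne, rfl⟩
    simp only at this
    omega
  -- summability
  have hsum : Summable (fun p : {p : Vtx × Vtx // Gr.Adj p.1 p.2} => (f p.1.1 - f p.1.2) ^ 2) := by
    apply summable_of_hasFiniteSupport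
    have : (((box (N + 1)) ×ˢ (box (N + 1)) : Finset (Vtx × Vtx)) : Set (Vtx × Vtx)).Finite :=
      Finset.finite_toSet _
    refine (this.preimage (f := fun p : {p : Vtx × Vtx // Gr.Adj p.1 p.2} => p.1)
      Subtype.val_injective.injOn).subset ?_
    rintro ⟨⟨u, v⟩, huv⟩ hp
    rw [adj_iff] at huv
    simp only at huv
    rw [Function.mem_support] at hp
    have : u.1 < N ∨ v.1 < N := by
      by_contra hcon
      rw [not_or, not_lt, not_lt] at hcon
      apply hp
      simp [hN u hcon.1, hN v hcon.2]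
    simp only [Set.mem_preimage, Finset.mem_coe, Finset.mem_product, mem_box]
    omega
  -- restrict to a finite sum
  let s : Finset (Σ i : ℕ, Fin (i + 1) × Fin (i + 1 + 1)) :=
    (Finset.range N).sigma (fun _ => Finset.univ)
  have h2 : ∑ q ∈ s, (f ⟨q.1, q.2.1⟩ - f ⟨q.1 + 1, q.2.2⟩) ^ 2 ≤
      ∑' p : {p : Vtx × Vtx // Gr.Adj p.1 p.2}, (f p.1.1 - f p.1.2) ^ 2 := by
    have := hsum.sum_le_tsum (s.map ⟨edge, edge_inj⟩) (fun _ _ => sq_nonneg _)
    rw [Finset.sum_map] at this
    exact this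
  refine le_trans ?_ h2
  rw [Finset.sum_sigma]
  -- averages
  let F : ℕ → ℝ := fun i => (∑ a : Fin (i + 1), f ⟨i, a⟩) / ((i : ℝ) + 1)
  let T : ℕ → ℝ := fun i => ∑ q : Fin (i + 1) × Fin (i + 1 + 1), (f ⟨i, q.1⟩ - f ⟨i + 1, q.2⟩) ^ 2
  have hT : ∀ i, (F i - F (i + 1)) ^ 2 * (((i : ℝ) + 1) * (i + 2)) ≤ T i := by
    intro i
    have := two_layer (i + 1) (i + 1 + 1) (fun a => f ⟨i, a⟩) (fun b => f ⟨i + 1, b⟩)
    have hi : (0 : ℝ) ≤ i := Nat.cast_nonneg i
    have e1 : F i - F (i + 1) = (((i + 1 + 1 : ℕ) : ℝ) * ∑ a : Fin (i + 1), f ⟨i, a⟩ -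
        ((i + 1 : ℕ) : ℝ) * ∑ b : Fin (i + 1 + 1), f ⟨i + 1, b⟩) / (((i : ℝ) + 1) * (i + 2)) := by
      simp only [F]
      push_cast
      have h1 : ((i : ℝ) + 1) ≠ 0 := by positivity
      have h2 : ((i : ℝ) + 2) ≠ 0 := by positivity
      have h3 : ((i : ℝ) + 1 + 1) ≠ 0 := by positivity
      field_simp
      ring
    rw [e1, div_pow]
    have hpos : (0 : ℝ) < ((i : ℝ) + 1) * (i + 2) := by positivity
    rw [div_mul_eq_mul_div, div_le_iff₀ (by positivity)]
    push_cast at this ⊢
    have e2 : ((i : ℝ) + 1 + 1) = i + 2 := by ring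
    rw [e2] at this ⊢
    calc _ ≤ (((i : ℝ) + 1) * (i + 2) * T i) * (((i : ℝ) + 1) * (i + 2)) :=
          mul_le_mul_of_nonneg_right this hpos.le
      _ = T i * (((i : ℝ) + 1) * (i + 2)) ^ 2 := by ring
  have hF0 : F 0 = 1 := by
    simp only [F]
    rw [Fin.sum_univ_one]
    simp only [Nat.cast_zero, zero_add, div_one]
    exact h1
  have hFN : F N = 0 := by
    simp only [F]
    rw [Finset.sum_eq_zero (fun a _ => hN ⟨N, a⟩ le_rfl), zero_div]
  have htel : ∑ i ∈ Finset.range N, (F i - F (i + 1)) = 1 := by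
    rw [Finset.sum_range_sub', hF0, hFN, sub_zero]
  have hw : ∑ i ∈ Finset.range N, (1 : ℝ) / (((i : ℝ) + 1) * (i + 2)) ≤ 1 := by
    have : ∀ n : ℕ, ∑ i ∈ Finset.range n, (1 : ℝ) / (((i : ℝ) + 1) * (i + 2)) =
        1 - 1 / ((n : ℝ) + 1) := by
      intro n
      induction n with
      | zero => simp
      | succ n ih =>
        rw [Finset.sum_range_succ, ih]
        have h1 : ((n : ℝ) + 1) ≠ 0 := by positivity
        have h2 : ((n : ℝ) + 2) ≠ 0 := by positivity
        have h3 : ((n : ℝ) + 1 + 1) ≠ 0 := by positivity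
        push_cast
        field_simp
        ring
    rw [this]
    have : (0 : ℝ) ≤ 1 / ((N : ℝ) + 1) := by positivity
    linarith
  have hCS : (∑ i ∈ Finset.range N, (F i - F (i + 1))) ^ 2 ≤
      (∑ i ∈ Finset.range N, (F i - F (i + 1)) ^ 2 * (((i : ℝ) + 1) * (i + 2))) *
      (∑ i ∈ Finset.range N, (1 : ℝ) / (((i : ℝ) + 1) * (i + 2))) := by
    apply Finset.sum_sq_le_sum_mul_sum_of_sq_le_mul
    · intro i _; positivity
    · intro i _; positivity
    · intro i _
      apply le_of_eq
      have h1 : ((i : ℝ) + 1) ≠ 0 := by positivity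
      have h2 : ((i : ℝ) + 2) ≠ 0 := by positivity
      field_simp
  rw [htel, one_pow] at hCS
  have hA : ∑ i ∈ Finset.range N, (F i - F (i + 1)) ^ 2 * (((i : ℝ) + 1) * (i + 2)) ≤
      ∑ i ∈ Finset.range N, T i := Finset.sum_le_sum (fun i _ => hT i)
  have hA0 : 0 ≤ ∑ i ∈ Finset.range N, (F i - F (i + 1)) ^ 2 * (((i : ℝ) + 1) * (i + 2)) :=
    Finset.sum_nonneg (fun i _ => by positivity)
  have : (1 : ℝ) ≤ ∑ i ∈ Finset.range N, (F i - F (i + 1)) ^ 2 * (((i : ℝ) + 1) * (i + 2)) := by
    nlinarith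
  exact this.trans hA

/-! ### recurrence of sphere packed subgraphs -/

/-- edge count in a packing -/
theorem count {ι : Type*} [DecidableEq ι] (A : ι → ι → Prop) [DecidableRel A]
    (x : ι → EuclideanSpace ℝ (Fin 3)) (r : ι → ℝ)
    (hr : ∀ v, 0 < r v) (hd : ∀ u v, u ≠ v → r u + r v ≤ dist (x u) (x v))
    (hA : ∀ u v, A u v → u ≠ v ∧ dist (x u) (x v) = r u + r v) (W : Finset ι) :
    ((W ×ˢ W).filter (fun p => A p.1 p.2)).card ≤ 250 * W.card := by
  classical
  have hone : ∀ u, (W.filter (fun v => A u v ∧ r u ≤ r v)).card ≤ 125 := by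
    intro u
    have := Pool.Agent.Helper40.Kissing.kissing (x u) (r u) (hr u)
      (W.filter (fun v => A u v ∧ r u ≤ r v)) x r
      (fun v hv => (Finset.mem_filter.1 hv).2.2)
      (fun v hv => (hA u v (Finset.mem_filter.1 hv).2.1).2)
      (fun v _ w _ hvw => hd v w hvw)
    simpa using this
  have hone' : ∀ v, (W.filter (fun u => A u v ∧ r v ≤ r u)).card ≤ 125 := by
    intro v
    have := Pool.Agent.Helper40.Kissing.kissing (x v) (r v) (hr v)
      (W.filter (fun u => A u v ∧ r v ≤ r u)) x r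
      (fun u hu => (Finset.mem_filter.1 hu).2.2)
      (fun u hu => by
        rw [dist_comm, (hA u v (Finset.mem_filter.1 hu).2.1).2, add_comm])
      (fun v _ w _ hvw => hd v w hvw)
    simpa using this
  have hsub : (W ×ˢ W).filter (fun p => A p.1 p.2) ⊆
      (W ×ˢ W).filter (fun p => A p.1 p.2 ∧ r p.1 ≤ r p.2) ∪
      (W ×ˢ W).filter (fun p => A p.1 p.2 ∧ r p.2 ≤ r p.1) := by
    intro p hp
    rw [Finset.mem_filter] at hp
    rw [Finset.mem_union, Finset.mem_filter, Finset.mem_filter]
    rcases le_total (r p.1) (r p.2) with h | h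
    · exact Or.inl ⟨hp.1, hp.2, h⟩
    · exact Or.inr ⟨hp.1, hp.2, h⟩
  have c1 : ((W ×ˢ W).filter (fun p => A p.1 p.2 ∧ r p.1 ≤ r p.2)).card ≤ 125 * W.card := by
    rw [Finset.card_filter, Finset.sum_product]
    calc _ = ∑ u ∈ W, (W.filter (fun v => A u v ∧ r u ≤ r v)).card := by
          apply Finset.sum_congr rfl
          intro u _
          rw [Finset.card_filter]
      _ ≤ ∑ u ∈ W, 125 := Finset.sum_le_sum (fun u _ => hone u)
      _ = 125 * W.card := by rw [Finset.sum_const, smul_eq_mul, mul_comm]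
  have c2 : ((W ×ˢ W).filter (fun p => A p.1 p.2 ∧ r p.2 ≤ r p.1)).card ≤ 125 * W.card := by
    rw [Finset.card_filter, Finset.sum_product_right]
    calc _ = ∑ v ∈ W, (W.filter (fun u => A u v ∧ r v ≤ r u)).card := by
          apply Finset.sum_congr rfl
          intro u _
          rw [Finset.card_filter]
      _ ≤ ∑ u ∈ W, 125 := Finset.sum_le_sum (fun u _ => hone' u)
      _ = 125 * W.card := by rw [Finset.sum_const, smul_eq_mul, mul_comm]
  calc _ ≤ _ := Finset.card_le_card hsub
    _ ≤ _ := Finset.card_union_le _ _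
    _ ≤ 250 * W.card := by omega

/-- vertices in layers `i`, `i+1` -/
def two (i : ℕ) : Finset Vtx := (box (i + 1)).filter (fun v => i ≤ v.1)

theorem mem_two {i : ℕ} {v : Vtx} : v ∈ two i ↔ i ≤ v.1 ∧ v.1 ≤ i + 1 := by
  rw [two, Finset.mem_filter, mem_box]; tauto

theorem card_two (i : ℕ) : (two i).card = 2 * i + 3 := by
  have : two i = ({i, i + 1} : Finset ℕ).sigma (fun _ => Finset.univ) := by
    ext v
    rw [mem_two]
    simp only [Finset.mem_sigma, Finset.mem_insert, Finset.mem_singleton, Finset.mem_univ,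
      and_true]
    omega
  rw [this, Finset.card_sigma, Finset.sum_pair (by omega)]
  simp only [Finset.card_univ, Fintype.card_fin]
  omega

theorem recurrent (H : Gr.Subgraph) (x : H.verts → EuclideanSpace ℝ (Fin 3)) (r : H.verts → ℝ)
    (hr : ∀ v, 0 < r v) (hd : ∀ u v, u ≠ v → r u + r v ≤ dist (x u) (x v))
    (ht : ∀ u v, u ≠ v → (H.coe.Adj u v ↔ dist (x u) (x v) = r u + r v)) (o : H.verts) (c : ℝ)
    (hc : 0 < c)
    (hcap : ∀ f : H.verts → ℝ, (Function.support f).Finite → f o = 1 →
        c ≤ ∑' p : {p : H.verts × H.verts // H.coe.Adj p.1 p.2}, (f p.1.1 - f p.1.2) ^ 2) :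
    False := by
  classical
  -- test functions
  let h : ℕ → ℝ := fun N => ∑ j ∈ Finset.range N, 1 / ((j : ℝ) + 1)
  have hmono : Monotone h := by
    intro a b hab
    exact Finset.sum_le_sum_of_subset_of_nonneg (Finset.range_mono hab)
      (fun _ _ _ => by positivity)
  have htop : Filter.Tendsto h Filter.atTop Filter.atTop :=
    Real.tendsto_sum_range_one_div_nat_succ_atTop
  set n0 := o.1.1 with hn0
  -- energy bound for the test function with parameter `N`
  have key : ∀ N : ℕ, h n0 < h N → c * (h N - h n0) ^ 2 ≤ 1500 * h N := by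
    intro N hN
    set S := h N - h n0 with hS
    have hSpos : 0 < S := by rw [hS]; linarith
    let φ : ℕ → ℝ := fun i => if i < N then (h N - h i) / S else 0
    have hφdiff : ∀ i, i < N → φ i - φ (i + 1) = 1 / ((i : ℝ) + 1) / S := by
      intro i hi
      have h1 : h (i + 1) = h i + 1 / ((i : ℝ) + 1) := Finset.sum_range_succ _ _
      simp only [φ]
      rw [if_pos hi]
      by_cases hi2 : i + 1 < N
      · rw [if_pos hi2, h1]; ring
      · have : N = i + 1 := by omega
        rw [if_neg hi2, this, h1]; ring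
    have hφzero : ∀ i, N ≤ i → φ i = 0 := by
      intro i hi
      simp only [φ]
      rw [if_neg (by omega)]
    have hn0N : n0 < N := by
      by_contra hcon
      rw [not_lt] at hcon
      have := hmono hcon
      linarith
    let f : H.verts → ℝ := fun v => φ v.1.1
    have hf1 : f o = 1 := by
      simp only [f, φ]
      rw [← hn0, if_pos hn0N, ← hS, div_self hSpos.ne']
    -- the finite set of vertices of `H` in the box
    let BH : Finset H.verts := (box N).subtype (fun v => v ∈ H.verts)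
    have hBH : ∀ v : H.verts, v ∈ BH ↔ v.1.1 ≤ N := by
      intro v
      simp only [BH, Finset.mem_subtype, mem_box]
    have hsupp : (Function.support f).Finite := by
      apply BH.finite_toSet.subset
      intro v hv
      rw [Finset.mem_coe, hBH]
      by_contra hcon
      exact hv (hφzero _ (by omega))
    have hE := hcap f hsupp hf1
    let s : Finset {p : H.verts × H.verts // H.coe.Adj p.1 p.2} :=
      (BH ×ˢ BH).subtype (fun p => H.coe.Adj p.1 p.2)
    have hadj : ∀ p : H.verts × H.verts, H.coe.Adj p.1 p.2 →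
        p.1.1.1 + 1 = p.2.1.1 ∨ p.2.1.1 + 1 = p.1.1.1 := by
      intro p hp
      exact (adj_iff _ _).1 (H.adj_sub hp)
    have hts : ∑' p : {p : H.verts × H.verts // H.coe.Adj p.1 p.2}, (f p.1.1 - f p.1.2) ^ 2 =
        ∑ p ∈ s, (f p.1.1 - f p.1.2) ^ 2 := by
      apply tsum_eq_sum
      intro p hp
      have h1 := hadj p.1 p.2
      have h2 : ¬ (p.1.1.1.1 ≤ N ∧ p.1.2.1.1 ≤ N) := by
        intro hcon
        apply hp
        simp only [s, Finset.mem_subtype, Finset.mem_product, hBH]
        exact hcon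
      have h3 : f p.1.1 = 0 := hφzero _ (by omega)
      have h4 : f p.1.2 = 0 := hφzero _ (by omega)
      rw [h3, h4]; norm_num
    rw [hts] at hE
    have hs2 : ∑ p ∈ s, (f p.1.1 - f p.1.2) ^ 2 =
        ∑ p ∈ (BH ×ˢ BH).filter (fun p => H.coe.Adj p.1 p.2), (f p.1 - f p.2) ^ 2 := by
      simp only [s]
      rw [Finset.sum_subtype_eq_sum_filter (f := fun p : H.verts × H.verts => (f p.1 - f p.2) ^ 2)]
    rw [hs2] at hE
    have hmaps : ∀ p ∈ (BH ×ˢ BH).filter (fun p => H.coe.Adj p.1 p.2),
        min p.1.1.1 p.2.1.1 ∈ Finset.range (N + 1) := by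
      intro p hp
      rw [Finset.mem_filter, Finset.mem_product, hBH, hBH] at hp
      rw [Finset.mem_range]
      omega
    rw [← Finset.sum_fiberwise_of_maps_to hmaps] at hE
    have hfib : ∀ i ∈ Finset.range (N + 1),
        ∑ p ∈ ((BH ×ˢ BH).filter (fun p => H.coe.Adj p.1 p.2)).filter
          (fun p => min p.1.1.1 p.2.1.1 = i), (f p.1 - f p.2) ^ 2 ≤
        if i < N then 1500 * (1 / ((i : ℝ) + 1)) / S ^ 2 else 0 := by
      intro i hi
      split_ifs with hiN
      · have hval : ∀ p ∈ ((BH ×ˢ BH).filter (fun p => H.coe.Adj p.1 p.2)).filter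
          (fun p => min p.1.1.1 p.2.1.1 = i), (f p.1 - f p.2) ^ 2 ≤
            (1 / ((i : ℝ) + 1) / S) ^ 2 := by
          intro p hp
          rw [Finset.mem_filter, Finset.mem_filter] at hp
          have h1 := hadj p hp.1.2
          have h2 := hp.2
          apply le_of_eq
          rcases h1 with h1 | h1
          · have e1 : p.1.1.1 = i := by omega
            have e2 : p.2.1.1 = i + 1 := by omega
            simp only [f]
            rw [e1, e2, hφdiff i hiN]
          · have e1 : p.1.1.1 = i + 1 := by omega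
            have e2 : p.2.1.1 = i := by omega
            simp only [f]
            rw [e1, e2, ← hφdiff i hiN]
            ring
        refine (Finset.sum_le_card_nsmul _ _ _ hval).trans ?_
        have hcard : (((BH ×ˢ BH).filter (fun p => H.coe.Adj p.1 p.2)).filter
          (fun p => min p.1.1.1 p.2.1.1 = i)).card ≤ 250 * (2 * i + 3) := by
          let W : Finset H.verts := (two i).subtype (fun v => v ∈ H.verts)
          have hW : ∀ v : H.verts, v ∈ W ↔ i ≤ v.1.1 ∧ v.1.1 ≤ i + 1 := by
            intro v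
            simp only [W, Finset.mem_subtype, mem_two]
          have hWcard : W.card ≤ 2 * i + 3 := by
            rw [← card_two i]
            simp only [W]
            rw [Finset.card_subtype]
            exact Finset.card_filter_le _ _
          have h1 := count (fun u v => H.coe.Adj u v) x r hr hd (fun u v huv =>
            ⟨huv.ne, (ht u v huv.ne).1 huv⟩) W
          refine le_trans (Finset.card_le_card ?_) (h1.trans (Nat.mul_le_mul_left _ hWcard))
          intro p hp
          rw [Finset.mem_filter, Finset.mem_filter] at hp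
          have h1 := hadj p hp.1.2
          have h2 := hp.2
          rw [Finset.mem_filter, Finset.mem_product, hW, hW]
          refine ⟨by omega, hp.1.2⟩
        rw [nsmul_eq_mul]
        have hcard' : ((((BH ×ˢ BH).filter (fun p => H.coe.Adj p.1 p.2)).filter
          (fun p => min p.1.1.1 p.2.1.1 = i)).card : ℝ) ≤ 750 * ((i : ℝ) + 1) := by
          have : ((((BH ×ˢ BH).filter (fun p => H.coe.Adj p.1 p.2)).filter
            (fun p => min p.1.1.1 p.2.1.1 = i)).card : ℝ) ≤ ((250 * (2 * i + 3) : ℕ) : ℝ) := by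
            exact_mod_cast hcard
          refine this.trans ?_
          push_cast
          have hi0 : (0 : ℝ) ≤ i := Nat.cast_nonneg i
          linarith
        have hi1 : (0 : ℝ) < (i : ℝ) + 1 := by positivity
        calc _ ≤ 750 * ((i : ℝ) + 1) * (1 / ((i : ℝ) + 1) / S) ^ 2 :=
              mul_le_mul_of_nonneg_right hcard' (by positivity)
          _ = 750 * (1 / ((i : ℝ) + 1)) / S ^ 2 := by
              field_simp
          _ ≤ 1500 * (1 / ((i : ℝ) + 1)) / S ^ 2 := by
              apply div_le_div_of_nonneg_right _ (by positivity)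
              apply mul_le_mul_of_nonneg_right _ (by positivity)
              norm_num
      · apply le_of_eq
        apply Finset.sum_eq_zero
        intro p hp
        rw [Finset.mem_filter, Finset.mem_filter] at hp
        have h2 := hp.2
        have h3 : f p.1 = 0 := hφzero _ (by omega)
        have h4 : f p.2 = 0 := hφzero _ (by omega)
        rw [h3, h4]; norm_num
    have hE2 := hE.trans (Finset.sum_le_sum hfib)
    rw [Finset.sum_range_succ, if_neg (lt_irrefl N), add_zero] at hE2
    have hE3 : ∑ i ∈ Finset.range N, (if i < N then 1500 * (1 / ((i : ℝ) + 1)) / S ^ 2 else 0) =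
        1500 * h N / S ^ 2 := by
      have : ∀ i ∈ Finset.range N, (if i < N then 1500 * (1 / ((i : ℝ) + 1)) / S ^ 2 else 0) =
          1500 / S ^ 2 * (1 / ((i : ℝ) + 1)) := by
        intro i hi
        rw [if_pos (Finset.mem_range.1 hi)]
        ring
      rw [Finset.sum_congr rfl this, ← Finset.mul_sum]
      simp only [h]
      ring
    rw [hE3, le_div_iff₀ (by positivity)] at hE2
    exact hE2
  -- conclude
  obtain ⟨N, hN⟩ := (htop.eventually_gt_atTop (2 * h n0 + 6000 / c + 1)).exists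
  have hn0nn : 0 ≤ h n0 := Finset.sum_nonneg (fun _ _ => by positivity)
  have hcpos : 0 < 6000 / c := by positivity
  have h1 := key N (by linarith)
  have h2 : h N / 2 ≤ h N - h n0 := by linarith
  have hNpos : 0 < h N := by linarith
  have h3 : (h N / 2) ^ 2 ≤ (h N - h n0) ^ 2 := pow_le_pow_left₀ (by positivity) h2 2
  have h4 : c * (h N / 2) ^ 2 ≤ 1500 * h N := (mul_le_mul_of_nonneg_left h3 hc.le).trans h1
  have h5 : 6000 / c < h N := by linarith
  rw [div_lt_iff₀ hc] at h5
  nlinarith

end Pool.Agent.Helper40.Layered
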