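import Mathlib

set_option autoImplicit false

namespace Pool.Agent.Helper40.Renorm

open Filter Topology
open scoped ENNReal

section signs

variable {𝕜 : Type*} [RCLike 𝕜] {H : Type*} [NormedAddCommGroup H] [InnerProductSpace 𝕜 H]

/-- signs can be chosen so that the square norm of the signed sum dominates the sum of squares -/
theorem exists_signs (y : ℕ → H) (m : ℕ) :
    ∃ ε : ℕ → 𝕜, (∀ i, ‖ε i‖ = 1) ∧
      ∑ i ∈ Finset.range m, ‖y i‖ ^ 2 ≤ ‖∑ i ∈ Finset.range m, ε i • y i‖ ^ 2 := by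
  induction m with
  | zero => exact ⟨fun _ => 1, by simp, by simp⟩
  | succ m ih =>
    obtain ⟨ε, h1, h2⟩ := ih
    set S := ∑ i ∈ Finset.range m, ε i • y i with hS
    have hpar := parallelogram_law_with_norm 𝕜 S (y m)
    have hex : ∃ δ : 𝕜, ‖δ‖ = 1 ∧ ‖S‖ ^ 2 + ‖y m‖ ^ 2 ≤ ‖S + δ • y m‖ ^ 2 := by
      by_cases hc : ‖S‖ ^ 2 + ‖y m‖ ^ 2 ≤ ‖S + y m‖ ^ 2
      · exact ⟨1, by simp, by simpa using hc⟩
      · refine ⟨-1, by simp, ?_⟩
        rw [neg_one_smul, ← sub_eq_add_neg]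
        rw [not_le] at hc
        nlinarith
    obtain ⟨δ, hδ, hδ2⟩ := hex
    refine ⟨fun i => if i = m then δ else ε i, ?_, ?_⟩
    · intro i
      by_cases hi : i = m
      · simp [hi, hδ]
      · simp [hi, h1]
    · rw [Finset.sum_range_succ, Finset.sum_range_succ]
      simp only [if_true]
      have : ∑ i ∈ Finset.range m, (if i = m then δ else ε i) • y i = S := by
        rw [hS]
        apply Finset.sum_congr rfl
        intro i hi
        rw [if_neg (Finset.mem_range.1 hi).ne]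
      rw [this]
      linarith

end signs

section space

variable (𝕜 : Type) [RCLike 𝕜]

instance : Fact ((1 : ℝ≥0∞) ≤ 4) := ⟨by norm_num⟩

/-- the Banach space `ℓ_2 ⊕ ℓ_4` -/
abbrev Sp : Type := (lp (fun _ : ℕ => 𝕜) 2) × (lp (fun _ : ℕ => 𝕜) 4)

/-- unit vectors of `ℓ_2` -/
noncomputable def e (n : ℕ) : Sp 𝕜 := (lp.single 2 n 1, 0)

/-- unit vectors of `ℓ_4` -/
noncomputable def f (n : ℕ) : Sp 𝕜 := (0, lp.single 4 n 1)

/-- coordinate functionals -/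
noncomputable def ce (n : ℕ) : Sp 𝕜 →L[𝕜] 𝕜 :=
  (lp.evalCLM 𝕜 (fun _ : ℕ => 𝕜) 2 n).comp (ContinuousLinearMap.fst 𝕜 _ _)

noncomputable def cf (n : ℕ) : Sp 𝕜 →L[𝕜] 𝕜 :=
  (lp.evalCLM 𝕜 (fun _ : ℕ => 𝕜) 4 n).comp (ContinuousLinearMap.snd 𝕜 _ _)

theorem ce_apply (n : ℕ) (v : Sp 𝕜) : ce 𝕜 n v = v.1 n := rfl
theorem cf_apply (n : ℕ) (v : Sp 𝕜) : cf 𝕜 n v = v.2 n := rfl

/-- the basis -/
noncomputable def bas (k : ℕ) : Sp 𝕜 :=
  if k % 2 = 0 then (2 : 𝕜) • e 𝕜 (k / 2) + f 𝕜 (k / 2) else e 𝕜 (k / 2) + f 𝕜 (k / 2)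

noncomputable def crd (k : ℕ) : Sp 𝕜 →L[𝕜] 𝕜 :=
  if k % 2 = 0 then ce 𝕜 (k / 2) - cf 𝕜 (k / 2) else (2 : 𝕜) • cf 𝕜 (k / 2) - ce 𝕜 (k / 2)

theorem ce_e (n m : ℕ) : ce 𝕜 n (e 𝕜 m) = if n = m then 1 else 0 := by
  rw [ce_apply, e]
  simp [Pi.single_apply]

theorem cf_f (n m : ℕ) : cf 𝕜 n (f 𝕜 m) = if n = m then 1 else 0 := by
  rw [cf_apply, f]
  simp [Pi.single_apply]

theorem ce_f (n m : ℕ) : ce 𝕜 n (f 𝕜 m) = 0 := by
  rw [ce_apply, f]; simp

theorem cf_e (n m : ℕ) : cf 𝕜 n (e 𝕜 m) = 0 := by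
  rw [cf_apply, e]; simp

theorem ortho (i j : ℕ) : crd 𝕜 i (bas 𝕜 j) = (Pi.single j (1 : 𝕜) : ℕ → 𝕜) i := by
  rw [Pi.single_apply]
  unfold crd bas
  by_cases hi : i % 2 = 0
  · by_cases hj : j % 2 = 0
    · rw [if_pos hi, if_pos hj]
      by_cases h : i / 2 = j / 2
      · have : i = j := by omega
        simp [ce_e, cf_f, ce_f, cf_e, this]
        norm_num
      · have : i ≠ j := by intro h'; exact h (by rw [h'])
        simp [ce_e, cf_f, ce_f, cf_e, this, h]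
    · rw [if_pos hi, if_neg hj]
      have hne : i ≠ j := by intro h'; rw [h'] at hi; exact hj hi
      by_cases h : i / 2 = j / 2
      · simp [ce_e, cf_f, ce_f, cf_e, hne, h]
      · simp [ce_e, cf_f, ce_f, cf_e, hne, h]
  · by_cases hj : j % 2 = 0
    · rw [if_neg hi, if_pos hj]
      have hne : i ≠ j := by intro h'; rw [h'] at hi; exact hi hj
      by_cases h : i / 2 = j / 2
      · simp [ce_e, cf_f, ce_f, cf_e, hne, h]
      · simp [ce_e, cf_f, ce_f, cf_e, hne, h]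
    · rw [if_neg hi, if_neg hj]
      by_cases h : i / 2 = j / 2
      · have : i = j := by omega
        simp [ce_e, cf_f, ce_f, cf_e, this]
        norm_num
      · have : i ≠ j := by intro h'; exact h (by rw [h'])
        simp [ce_e, cf_f, ce_f, cf_e, this, h]

theorem norm_e (n : ℕ) : ‖e 𝕜 n‖ = 1 := by
  rw [e, Prod.norm_mk, lp.norm_single (by norm_num), norm_zero, norm_one]
  simp

theorem norm_f (n : ℕ) : ‖f 𝕜 n‖ = 1 := by
  rw [f, Prod.norm_mk, lp.norm_single (by norm_num), norm_zero, norm_one]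
  simp

/-- the pair `2n, 2n+1` gives the block `n` -/
theorem pair (v : Sp 𝕜) (n : ℕ) :
    crd 𝕜 (2 * n) v • bas 𝕜 (2 * n) + crd 𝕜 (2 * n + 1) v • bas 𝕜 (2 * n + 1) =
      (lp.single 2 n (v.1 n), lp.single 4 n (v.2 n)) := by
  have h1 : (2 * n) % 2 = 0 := by omega
  have h2 : ¬ ((2 * n + 1) % 2 = 0) := by omega
  have h3 : (2 * n) / 2 = n := by omega
  have h4 : (2 * n + 1) / 2 = n := by omega
  unfold crd bas
  rw [if_pos h1, if_pos h1, if_neg h2, if_neg h2, h3, h4]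
  have e1 : (lp.single 2 n (v.1 n) : lp (fun _ : ℕ => 𝕜) 2) = v.1 n • lp.single 2 n 1 := by
    rw [← lp.single_smul, smul_eq_mul, mul_one]
  have e2 : (lp.single 4 n (v.2 n) : lp (fun _ : ℕ => 𝕜) 4) = v.2 n • lp.single 4 n 1 := by
    rw [← lp.single_smul, smul_eq_mul, mul_one]
  rw [e1, e2]
  ext1
  · simp only [sub_apply, smul_apply, ce_apply, cf_apply, e, f, smul_eq_mul, Prod.fst_add,
      Prod.smul_fst, add_zero]
    rw [smul_smul, ← add_smul]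
    congr 1
    ring
  · simp only [sub_apply, smul_apply, ce_apply, cf_apply, e, f, smul_eq_mul, Prod.snd_add,
      Prod.smul_snd, zero_add, smul_zero]
    rw [← add_smul]
    congr 1
    ring

theorem sum_even (v : Sp 𝕜) (m : ℕ) :
    ∑ i ∈ Finset.range (2 * m), crd 𝕜 i v • bas 𝕜 i =
      (∑ n ∈ Finset.range m, lp.single 2 n (v.1 n), ∑ n ∈ Finset.range m, lp.single 4 n (v.2 n)) := by
  induction m with
  | zero => simp only [mul_zero, Finset.range_zero, Finset.sum_empty]; rfl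
  | succ m ih =>
    rw [show 2 * (m + 1) = 2 * m + 1 + 1 by ring, Finset.sum_range_succ, Finset.sum_range_succ, ih,
      add_assoc, pair, Finset.sum_range_succ, Finset.sum_range_succ]
    rfl

theorem tendsto_even (v : Sp 𝕜) :
    Tendsto (fun m => ∑ i ∈ Finset.range (2 * m), crd 𝕜 i v • bas 𝕜 i) atTop (𝓝 v) := by
  have h1 := (lp.hasSum_single (p := 2) (by norm_num) v.1).tendsto_sum_nat
  have h2 := (lp.hasSum_single (p := 4) (by norm_num) v.2).tendsto_sum_nat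
  have h3 := h1.prodMk_nhds h2
  refine h3.congr ?_
  intro m
  rw [sum_even]

theorem tendsto_term (v : Sp 𝕜) :
    Tendsto (fun m => crd 𝕜 (2 * m) v • bas 𝕜 (2 * m)) atTop (𝓝 0) := by
  have h1 := (lp.hasSum_single (p := 2) (by norm_num) v.1).summable.tendsto_atTop_zero
  have h2 := (lp.hasSum_single (p := 4) (by norm_num) v.2).summable.tendsto_atTop_zero
  have h1' : Tendsto (fun n => ‖v.1 n‖) atTop (𝓝 0) := by
    have := h1.norm
    rw [norm_zero] at this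
    refine this.congr (fun n => ?_)
    rw [lp.norm_single (by norm_num)]
  have h2' : Tendsto (fun n => ‖v.2 n‖) atTop (𝓝 0) := by
    have := h2.norm
    rw [norm_zero] at this
    refine this.congr (fun n => ?_)
    rw [lp.norm_single (by norm_num)]
  have h3 : Tendsto (fun n => (‖v.1 n‖ + ‖v.2 n‖) * 3) atTop (𝓝 0) := by
    have := (h1'.add h2').mul_const 3
    simpa using this
  refine squeeze_zero_norm ?_ h3
  intro n
  have k1 : (2 * n) % 2 = 0 := by omega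
  have k3 : (2 * n) / 2 = n := by omega
  unfold crd bas
  rw [if_pos k1, if_pos k1, k3, norm_smul]
  apply mul_le_mul
  · exact norm_sub_le _ _
  · refine (norm_add_le _ _).trans ?_
    rw [norm_smul, norm_e, norm_f]
    simp
    norm_num
  · positivity
  · positivity

theorem tendsto_all (v : Sp 𝕜) :
    Tendsto (fun m => ∑ i ∈ Finset.range m, crd 𝕜 i v • bas 𝕜 i) atTop (𝓝 v) := by
  have h0 : Tendsto (fun m : ℕ => m / 2) atTop atTop :=
    Nat.tendsto_div_const_atTop (by norm_num)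
  have h1 := (tendsto_even 𝕜 v).comp h0
  have h2 := (tendsto_term 𝕜 v).comp h0
  have h3 : Tendsto (fun m : ℕ => if m % 2 = 0 then (0 : Sp 𝕜) else
      crd 𝕜 (2 * (m / 2)) v • bas 𝕜 (2 * (m / 2))) atTop (𝓝 0) := by
    rw [tendsto_zero_iff_norm_tendsto_zero] at h2 ⊢
    refine squeeze_zero (fun m => norm_nonneg _) (fun m => ?_) h2
    simp only [Function.comp]
    split_ifs
    · rw [norm_zero]; exact norm_nonneg _
    · exact le_rfl
  have h4 := h1.add h3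
  rw [add_zero] at h4
  refine h4.congr ?_
  intro m
  simp only [Function.comp]
  by_cases hm : m % 2 = 0
  · rw [if_pos hm, add_zero]
    congr 2
    omega
  · rw [if_neg hm]
    have : m = 2 * (m / 2) + 1 := by omega
    conv_rhs => rw [this, Finset.sum_range_succ]

/-- the Schauder basis `2e_n + f_n, e_n + f_n` of `ℓ_2 ⊕ ℓ_4` -/
noncomputable def B : SchauderBasis 𝕜 (Sp 𝕜) where
  basis := bas 𝕜
  coord := crd 𝕜
  ortho i j := by
    rw [ortho]
    congr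
  expansion v := by
    rw [HasSum, SummationFilter.conditional_filter_eq_map_range, tendsto_map'_iff]
    exact tendsto_all 𝕜 v

theorem proj_e (n : ℕ) : SchauderBasis.proj (B 𝕜) (2 * n + 1) (e 𝕜 n) =
    (2 : 𝕜) • e 𝕜 n + f 𝕜 n := by
  have h1 : (2 * n) % 2 = 0 := by omega
  have h2 : ¬ ((2 * n + 1) % 2 = 0) := by omega
  have h3 : (2 * n) / 2 = n := by omega
  have h4 : (2 * n + 1) / 2 = n := by omega
  have b1 : (B 𝕜) (2 * n) = (2 : 𝕜) • e 𝕜 n + f 𝕜 n := by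
    show bas 𝕜 (2 * n) = _
    rw [bas, if_pos h1, h3]
  have b2 : (B 𝕜) (2 * n + 1) = e 𝕜 n + f 𝕜 n := by
    show bas 𝕜 (2 * n + 1) = _
    rw [bas, if_neg h2, h4]
  have h5 : e 𝕜 n = (B 𝕜) (2 * n) - (B 𝕜) (2 * n + 1) := by
    rw [b1, b2]; module
  rw [h5, map_sub, SchauderBasis.proj_apply_basis_mem, SchauderBasis.proj_apply_basis_mem,
    if_pos (by omega), if_neg (by omega), sub_zero, ← h5, b1]

/-- `E = ℓ_2` -/
noncomputable def E : Submodule 𝕜 (Sp 𝕜) := (⊤ : Submodule 𝕜 (lp (fun _ : ℕ => 𝕜) 2)).prod ⊥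

theorem mem_E (v : Sp 𝕜) : v ∈ E 𝕜 ↔ v.2 = 0 := by
  simp [E, Submodule.mem_prod]

theorem E_compl : (E 𝕜).ClosedComplemented := by
  refine ⟨((ContinuousLinearMap.inl 𝕜 _ _).comp (ContinuousLinearMap.fst 𝕜 _ _)).codRestrict
    (E 𝕜) ?_, ?_⟩
  · intro v
    rw [mem_E]
    rfl
  · rintro ⟨v, hv⟩
    rw [mem_E] at hv
    apply Subtype.ext
    show ((v.1, 0) : Sp 𝕜) = v
    rw [← hv]

theorem norm_sum_f (ε : ℕ → 𝕜) (hε : ∀ i, ‖ε i‖ = 1) (m : ℕ) :
    ‖∑ i ∈ Finset.range m, ε i • f 𝕜 i‖ ^ 4 = m := by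
  have h1 : ∑ i ∈ Finset.range m, ε i • f 𝕜 i =
      (0, ∑ i ∈ Finset.range m, lp.single 4 i (ε i)) := by
    have h2 : ∀ i, ε i • f 𝕜 i = ((0 : lp (fun _ : ℕ => 𝕜) 2),
        (lp.single 4 i (ε i) : lp (fun _ : ℕ => 𝕜) 4)) := by
      intro i
      rw [f, Prod.smul_mk, smul_zero, ← lp.single_smul, smul_eq_mul, mul_one]
    induction m with
    | zero => simp only [Finset.range_zero, Finset.sum_empty]; rfl
    | succ m ih => rw [Finset.sum_range_succ, ih, h2, Prod.mk_add_mk, Finset.sum_range_succ,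
        add_zero]
  rw [h1, Prod.norm_mk, norm_zero, max_eq_right (norm_nonneg _)]
  have h3 := lp.norm_sum_single (E := fun _ : ℕ => 𝕜) (p := 4) (by norm_num) ε (Finset.range m)
  have h4 : ((4 : ℝ≥0∞).toReal) = ((4 : ℕ) : ℝ) := by norm_num
  rw [h4, Real.rpow_natCast] at h3
  rw [h3]
  simp [hε]

/-- the main contradiction -/
theorem no_norm (N : Seminorm 𝕜 (Sp 𝕜)) (c C : ℝ) (hc : 0 < c)
    (hN : ∀ v, c * ‖v‖ ≤ N v ∧ N v ≤ C * ‖v‖)
    (hmon : ∀ n v, N (SchauderBasis.proj (B 𝕜) n v) ≤ N v)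
    (P : Sp 𝕜 →ₗ[𝕜] Sp 𝕜) (hP : LinearMap.IsProj (E 𝕜) P) (hP1 : ∀ v, N (P v) ≤ N v) : False := by
  have hC : 0 < C := by
    have := hN (e 𝕜 0)
    rw [norm_e] at this
    linarith
  -- lower bound for `P f_n`
  have low : ∀ n, c / C ≤ ‖P (f 𝕜 n)‖ := by
    intro n
    have h1 : P (e 𝕜 n) = e 𝕜 n := hP.map_id _ ((mem_E 𝕜 _).2 rfl)
    have h2 : N ((2 : 𝕜) • e 𝕜 n + P (f 𝕜 n)) ≤ N (e 𝕜 n) := by
      have := (hP1 ((2 : 𝕜) • e 𝕜 n + f 𝕜 n))
      rw [map_add, map_smul, h1] at this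
      refine this.trans ?_
      rw [← proj_e]
      exact hmon _ _
    have h3 : N ((2 : 𝕜) • e 𝕜 n) ≤ N ((2 : 𝕜) • e 𝕜 n + P (f 𝕜 n)) + N (P (f 𝕜 n)) := by
      have := map_sub_le_add N ((2 : 𝕜) • e 𝕜 n + P (f 𝕜 n)) (P (f 𝕜 n))
      rwa [add_sub_cancel_right] at this
    rw [map_smul_eq_mul] at h3
    have h4 : ‖(2 : 𝕜)‖ = 2 := by simp
    rw [h4] at h3
    have h5 := (hN (e 𝕜 n)).1
    rw [norm_e] at h5
    have h6 := (hN (P (f 𝕜 n))).2
    rw [div_le_iff₀ hC]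
    linarith
  -- boundedness of `P`
  have bdd : ∀ v, ‖P v‖ ≤ C / c * ‖v‖ := by
    intro v
    have h1 := (hN (P v)).1
    have h2 := (hN v).2
    have h3 := hP1 v
    rw [div_mul_eq_mul_div, le_div_iff₀ hc]
    linarith
  -- estimate
  have est : ∀ m : ℕ, ((m : ℝ) * (c / C) ^ 2) ^ 2 ≤ (C / c) ^ 4 * m := by
    intro m
    obtain ⟨ε, hε, h1⟩ := exists_signs (𝕜 := 𝕜) (fun i => (P (f 𝕜 i)).1) m
    have h2 : ∀ v, ‖(P v).1‖ = ‖P v‖ := by
      intro v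
      have := (mem_E 𝕜 _).1 (hP.map_mem v)
      rw [Prod.norm_def, this, norm_zero, max_eq_left (norm_nonneg _)]
    have h3 : ∑ i ∈ Finset.range m, ε i • (P (f 𝕜 i)).1 =
        (P (∑ i ∈ Finset.range m, ε i • f 𝕜 i)).1 := by
      rw [map_sum, Prod.fst_sum]
      apply Finset.sum_congr rfl
      intro i _
      rw [map_smul]
      rfl
    rw [h3, h2] at h1
    have h4 : (m : ℝ) * (c / C) ^ 2 ≤ ∑ i ∈ Finset.range m, ‖(P (f 𝕜 i)).1‖ ^ 2 := by
      have : ∑ i ∈ Finset.range m, (c / C) ^ 2 ≤ ∑ i ∈ Finset.range m, ‖(P (f 𝕜 i)).1‖ ^ 2 := by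
        apply Finset.sum_le_sum
        intro i _
        rw [h2]
        exact pow_le_pow_left₀ (by positivity) (low i) 2
      rwa [Finset.sum_const, Finset.card_range, nsmul_eq_mul] at this
    have h5 := h4.trans h1
    have h6 := bdd (∑ i ∈ Finset.range m, ε i • f 𝕜 i)
    calc ((m : ℝ) * (c / C) ^ 2) ^ 2 ≤ (‖P (∑ i ∈ Finset.range m, ε i • f 𝕜 i)‖ ^ 2) ^ 2 :=
          pow_le_pow_left₀ (by positivity) h5 2
      _ = ‖P (∑ i ∈ Finset.range m, ε i • f 𝕜 i)‖ ^ 4 := by ring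
      _ ≤ (C / c * ‖∑ i ∈ Finset.range m, ε i • f 𝕜 i‖) ^ 4 :=
          pow_le_pow_left₀ (norm_nonneg _) h6 4
      _ = (C / c) ^ 4 * ‖∑ i ∈ Finset.range m, ε i • f 𝕜 i‖ ^ 4 := by ring
      _ = (C / c) ^ 4 * m := by rw [norm_sum_f 𝕜 ε hε]
  -- contradiction for large `m`
  obtain ⟨m, hm⟩ := exists_nat_gt ((C / c) ^ 4 / (c / C) ^ 4)
  have hpos : 0 < (c / C) ^ 4 := by positivity
  rw [div_lt_iff₀ hpos] at hm
  have hm0 : 0 < (m : ℝ) := by
    by_contra hcon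
    have : (m : ℝ) = 0 := le_antisymm (not_lt.1 hcon) (Nat.cast_nonneg m)
    rw [this, zero_mul] at hm
    have : 0 < (C / c) ^ 4 := by positivity
    linarith
  have := est m
  nlinarith

end space

/-- **Main theorem**. -/
theorem main (𝕜 : Type) [RCLike 𝕜] :
    ∃ (B : Type) (_ : NormedAddCommGroup B) (_ : NormedSpace 𝕜 B) (_ : CompleteSpace B)
      (b : SchauderBasis 𝕜 B) (E : Submodule 𝕜 B), E.ClosedComplemented ∧
      ∀ N : Seminorm 𝕜 B, (∃ c C : ℝ, 0 < c ∧ ∀ v, c * ‖v‖ ≤ N v ∧ N v ≤ C * ‖v‖) →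
        (∀ n v, N (SchauderBasis.proj b n v) ≤ N v) →
        ∀ P : B →ₗ[𝕜] B, LinearMap.IsProj E P → ¬ ∀ v, N (P v) ≤ N v := by
  refine ⟨Sp 𝕜, inferInstance, inferInstance, inferInstance, B 𝕜, E 𝕜, E_compl 𝕜, ?_⟩
  rintro N ⟨c, C, hc, hN⟩ hmon P hP hP1
  exact no_norm 𝕜 N c C hc hN hmon P hP hP1

end Pool.Agent.Helper40.Renorm
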