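import Mathlib

set_option autoImplicit false

namespace Pool.Agent.Helper40.SolAct

open scoped commutatorElement

/-! ## General group-theoretic lemmas -/

theorem commutator_closure_le {T : Type*} [Group T] {N : Subgroup T} {X : Set T}
    (hX : ∀ x ∈ X, ∀ n ∈ N, x * n * x⁻¹ ∈ N ∧ x⁻¹ * n * x ∈ N)
    (hc : ∀ x ∈ X, ∀ y ∈ X, ⁅x, y⁆ ∈ N) :
    ⁅Subgroup.closure X, Subgroup.closure X⁆ ≤ N := by
  have hcl : ∀ x ∈ Subgroup.closure X, ∀ n ∈ N, x * n * x⁻¹ ∈ N ∧ x⁻¹ * n * x ∈ N := by
    intro x hx
    induction hx using Subgroup.closure_induction with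
    | mem x hx => exact hX x hx
    | one => intro n hn; simpa using hn
    | mul x y _ _ ihx ihy =>
      intro n hn
      constructor
      · have := (ihx _ ((ihy n hn).1)).1
        simpa [mul_assoc] using this
      · have := (ihy _ ((ihx n hn).2)).2
        simpa [mul_assoc] using this
    | inv x _ ih =>
      intro n hn
      have := ih n hn
      constructor
      · simpa using this.2
      · simpa using this.1
  rw [Subgroup.commutator_le]
  intro x hx y hy
  induction hx, hy using Subgroup.closure_induction₂ with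
  | mem x y hx hy => exact hc x hx y hy
  | one_left x _ => simp
  | one_right x _ => simp
  | mul_left x y z hx hy hz ih1 ih2 =>
    have h1 : ⁅x * y, z⁆ = x * ⁅y, z⁆ * x⁻¹ * ⁅x, z⁆ := by
      simp only [commutatorElement_def]; group
    rw [h1]
    exact N.mul_mem (hcl x hx _ ih2).1 ih1
  | mul_right y z x hy hz hx ih1 ih2 =>
    have h1 : ⁅x, y * z⁆ = ⁅x, y⁆ * (y * ⁅x, z⁆ * y⁻¹) := by
      simp only [commutatorElement_def]; group
    rw [h1]
    exact N.mul_mem ih1 (hcl y hy _ ih2).1
  | inv_left x y hx hy ih =>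
    have h1 : ⁅x⁻¹, y⁆ = x⁻¹ * ⁅x, y⁆⁻¹ * x := by
      simp only [commutatorElement_def]; group
    rw [h1]
    exact (hcl x hx _ (N.inv_mem ih)).2
  | inv_right x y hx hy ih =>
    have h1 : ⁅x, y⁻¹⁆ = y⁻¹ * ⁅x, y⁆⁻¹ * y := by
      simp only [commutatorElement_def]; group
    rw [h1]
    exact (hcl y hy _ (N.inv_mem ih)).2

/-- A subgroup generated by pairwise commuting elements has trivial commutator subgroup. -/
theorem commutator_closure_eq_bot {T : Type*} [Group T] {X : Set T}
    (hc : ∀ x ∈ X, ∀ y ∈ X, x * y = y * x) :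
    ⁅Subgroup.closure X, Subgroup.closure X⁆ = ⊥ := by
  rw [eq_bot_iff]
  refine commutator_closure_le ?_ ?_
  · intro x _ n hn
    rw [Subgroup.mem_bot] at hn
    subst hn
    simp
  · intro x hx y hy
    rw [Subgroup.mem_bot, commutatorElement_eq_one_iff_mul_comm]
    exact hc x hx y hy

/-- If `S` is a subgroup of the holomorph `M ⋊ Aut M` of an abelian group `M`, whose image `Q` in
`Aut M` satisfies `[Q, Q] ≤ B` with `[B, B] = 1`, then `S` has derived length at most `3`. -/
theorem derivedSeries_three {M : Type*} [CommGroup M]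
    (S : Subgroup (M ⋊[MonoidHom.id (MulAut M)] MulAut M)) (B : Subgroup (MulAut M))
    (h1 : ⁅S.map SemidirectProduct.rightHom, S.map SemidirectProduct.rightHom⁆ ≤ B)
    (h2 : ⁅B, B⁆ = ⊥) : derivedSeries S 3 = ⊥ := by
  have e0 : (derivedSeries S 0).map S.subtype = S := by
    rw [derivedSeries_zero, ← MonoidHom.range_eq_map, Subgroup.range_subtype]
  have e1 : (derivedSeries S 1).map S.subtype = ⁅S, S⁆ := by
    rw [derivedSeries_succ, Subgroup.map_commutator, e0]
  have e2 : (derivedSeries S 2).map S.subtype = ⁅⁅S, S⁆, ⁅S, S⁆⁆ := by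
    rw [derivedSeries_succ, Subgroup.map_commutator, e1]
  have e3 : (derivedSeries S 3).map S.subtype = ⁅⁅⁅S, S⁆, ⁅S, S⁆⁆, ⁅⁅S, S⁆, ⁅S, S⁆⁆⁆ := by
    rw [derivedSeries_succ, Subgroup.map_commutator, e2]
  have k1 : (⁅⁅S, S⁆, ⁅S, S⁆⁆).map SemidirectProduct.rightHom = ⊥ := by
    rw [Subgroup.map_commutator, Subgroup.map_commutator, eq_bot_iff, ← h2]
    exact Subgroup.commutator_mono h1 h1
  have k2 : ⁅⁅S, S⁆, ⁅S, S⁆⁆ ≤
      (SemidirectProduct.inl : M →* M ⋊[MonoidHom.id (MulAut M)] MulAut M).range := by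
    rw [SemidirectProduct.range_inl_eq_ker_rightHom]
    exact (Subgroup.map_eq_bot_iff _).1 k1
  have k3 : ⁅(SemidirectProduct.inl : M →* M ⋊[MonoidHom.id (MulAut M)] MulAut M).range,
      (SemidirectProduct.inl : M →* M ⋊[MonoidHom.id (MulAut M)] MulAut M).range⁆ = ⊥ := by
    rw [eq_bot_iff, Subgroup.commutator_le]
    rintro _ ⟨x, rfl⟩ _ ⟨y, rfl⟩
    rw [Subgroup.mem_bot, commutatorElement_eq_one_iff_mul_comm, ← map_mul, ← map_mul, mul_comm]
  have k4 : (derivedSeries S 3).map S.subtype = ⊥ := by
    rw [e3, eq_bot_iff, ← k3]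
    exact Subgroup.commutator_mono k2 k2
  rw [Subgroup.map_eq_bot_iff] at k4
  rwa [Subgroup.ker_subtype, le_bot_iff] at k4

/-! ## The module of functions on configurations -/

/-- Configurations: partial functions `ℤ → ℤ`. -/
abbrev Cfg : Type := ℤ → Option ℤ

/-- The abelian group of all functions `Cfg × G → {1, -1}`. -/
abbrev Fn (G : Type*) : Type _ := Cfg × G → ℤˣ

set_option linter.unusedSectionVars false

variable {G : Type*} [Group G]

/-- A permutation of the index set acts on functions. -/
def pull {X : Type*} (e : Equiv.Perm X) : MulAut (X → ℤˣ) where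
  toFun f := fun x => f (e x)
  invFun f := fun x => f (e.symm x)
  left_inv f := by funext x; simp
  right_inv f := by funext x; simp
  map_mul' f g := rfl

@[simp] theorem pull_apply {X : Type*} (e : Equiv.Perm X) (f : X → ℤˣ) (x : X) :
    pull e f x = f (e x) := rfl

@[simp] theorem pull_inv_apply {X : Type*} (e : Equiv.Perm X) (f : X → ℤˣ) (x : X) :
    (pull e)⁻¹ f x = f (e.symm x) := rfl

/-- shift of positions -/
def shiftPos : Equiv.Perm (Cfg × G) where
  toFun x := (fun i => x.1 (i + 1), x.2)
  invFun x := (fun i => x.1 (i - 1), x.2)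
  left_inv x := by ext <;> simp
  right_inv x := by ext <;> simp

/-- shift of labels -/
def shiftLab : Equiv.Perm (Cfg × G) where
  toFun x := (fun i => (x.1 i).map (· + 1), x.2)
  invFun x := (fun i => (x.1 i).map (· - 1), x.2)
  left_inv x := by ext <;> simp
  right_inv x := by ext <;> simp

/-- right multiplication on the group coordinate -/
def rmul (h : G) : Equiv.Perm (Cfg × G) where
  toFun x := (x.1, x.2 * h)
  invFun x := (x.1, x.2 * h⁻¹)
  left_inv x := by ext <;> simp
  right_inv x := by ext <;> simp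

/-- The operators `T`, `T'`. -/
def T : MulAut (Fn G) := pull shiftPos
def T' : MulAut (Fn G) := pull shiftLab

/-- The operator `ℓ_{μ,i} = 1 + r_{μ,i}` (written multiplicatively). -/
def ell (μ i : ℤ) : MulAut (Fn G) where
  toFun f := fun x => f x * (if x.1 i = none then f (Function.update x.1 i (some μ), x.2) else 1)
  invFun f := fun x => f x * (if x.1 i = none then f (Function.update x.1 i (some μ), x.2) else 1)
  left_inv f := by
    funext x
    by_cases h : x.1 i = none
    · simp [h, mul_assoc]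
    · simp [h]
  right_inv f := by
    funext x
    by_cases h : x.1 i = none
    · simp [h, mul_assoc]
    · simp [h]
  map_mul' f g := by
    funext x
    by_cases h : x.1 i = none
    · simp [h, mul_assoc, mul_left_comm]
    · simp [h]

theorem ell_apply (μ i : ℤ) (f : Fn G) (x : Cfg × G) : ell μ i f x =
    f x * (if x.1 i = none then f (Function.update x.1 i (some μ), x.2) else 1) := rfl

theorem ell_comm (μ i ν j : ℤ) : (ell μ i * ell ν j : MulAut (Fn G)) = ell ν j * ell μ i := by
  ext f x
  simp only [MulAut.mul_apply, ell_apply]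
  by_cases hij : i = j
  · subst hij
    by_cases h : x.1 i = none
    · simp [h, mul_right_comm]
    · simp [h]
  · by_cases h : x.1 i = none
    · by_cases h' : x.1 j = none
      · simp [h, h', Function.update_of_ne hij, Function.update_of_ne (Ne.symm hij),
          Function.update_comm hij, mul_assoc, mul_left_comm]
      · simp [h, h', Function.update_of_ne (Ne.symm hij)]
    · by_cases h' : x.1 j = none
      · simp [h, h', Function.update_of_ne hij]
      · simp [h, h']

theorem T_ell (μ i : ℤ) : (T * ell μ i * T⁻¹ : MulAut (Fn G)) = ell μ (i + 1) := by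
  ext f x
  simp only [MulAut.mul_apply, ell_apply, T, pull_apply, pull_inv_apply]
  have h1 : shiftPos.symm (shiftPos x) = x := by simp
  have h2 : shiftPos.symm (Function.update (shiftPos x).1 i (some μ), (shiftPos x).2)
      = (Function.update x.1 (i + 1) (some μ), x.2) := by
    ext j : 2
    · simp only [shiftPos, Equiv.coe_fn_symm_mk, Equiv.coe_fn_mk, Function.update_apply]
      by_cases hj : j = i + 1
      · simp [hj]
      · have : ¬ (j - 1 = i) := by omega
        simp [hj, this]
    · rfl
  rw [h1, h2]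
  rfl

theorem T_inv_ell (μ i : ℤ) : (T⁻¹ * ell μ i * T : MulAut (Fn G)) = ell μ (i - 1) := by
  have h := T_ell (G := G) μ (i - 1)
  rw [sub_add_cancel] at h
  rw [← h]
  group

theorem T'_ell (μ i : ℤ) : (T' * ell μ i * T'⁻¹ : MulAut (Fn G)) = ell (μ - 1) i := by
  ext f x
  simp only [MulAut.mul_apply, ell_apply, T', pull_apply, pull_inv_apply]
  have h1 : shiftLab.symm (shiftLab x) = x := by simp
  have h2 : shiftLab.symm (Function.update (shiftLab x).1 i (some μ), (shiftLab x).2)
      = (Function.update x.1 i (some (μ - 1)), x.2) := by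
    ext j : 2
    · simp only [shiftLab, Equiv.coe_fn_symm_mk, Equiv.coe_fn_mk, Function.update_apply]
      by_cases hj : j = i
      · simp [hj]
      · have : ((fun x : ℤ => x - 1) ∘ fun x => x + 1) = id := by funext y; simp
        simp [hj, this]
    · rfl
  have h3 : ((shiftLab x).1 i = none) = (x.1 i = none) := by
    simp [shiftLab]
  rw [h1, h2]
  simp only [h3]

theorem T'_inv_ell (μ i : ℤ) : (T'⁻¹ * ell μ i * T' : MulAut (Fn G)) = ell (μ + 1) i := by
  have h := T'_ell (G := G) (μ + 1) i
  rw [add_sub_cancel_right] at h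
  rw [← h]
  group

theorem T_comm_T' : (T * T' : MulAut (Fn G)) = T' * T := rfl

/-- The abelian group generated by all `ℓ_{μ,i}`. -/
def B (G : Type*) : Subgroup (MulAut (Fn G)) := Subgroup.closure {x | ∃ μ i, x = ell μ i}

theorem B_comm : ⁅B G, B G⁆ = ⊥ := by
  apply commutator_closure_eq_bot
  rintro _ ⟨μ, i, rfl⟩ _ ⟨ν, j, rfl⟩
  exact ell_comm μ i ν j

theorem ell_mem_B (μ i : ℤ) : (ell μ i : MulAut (Fn G)) ∈ B G :=
  Subgroup.subset_closure ⟨μ, i, rfl⟩

/-- If conjugation by `x` maps each generator into `B` then it maps `B` into `B`. -/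
theorem conj_B (x : MulAut (Fn G)) (hx : ∀ μ i, x * ell μ i * x⁻¹ ∈ B G) (n : MulAut (Fn G))
    (hn : n ∈ B G) : x * n * x⁻¹ ∈ B G := by
  have h : B G ≤ (B G).comap (MulAut.conj x).toMonoidHom := by
    rw [B, Subgroup.closure_le]
    rintro _ ⟨μ, i, rfl⟩
    exact hx μ i
  exact h hn

/-- the three linear generators -/
def gens (G : Type*) [Group G] : Set (MulAut (Fn G)) := {ell 0 0, T, T'}

theorem Q_comm : ⁅Subgroup.closure (gens G), Subgroup.closure (gens G)⁆ ≤ B G := by
  have c1 : ∀ n ∈ B G, T * n * T⁻¹ ∈ B G := fun n hn =>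
    conj_B _ (fun μ i => by rw [T_ell]; exact ell_mem_B _ _) n hn
  have c2 : ∀ n ∈ B G, T⁻¹ * n * T ∈ B G := fun n hn => by
    have := conj_B (G := G) T⁻¹ (fun μ i => by rw [inv_inv, T_inv_ell]; exact ell_mem_B _ _) n hn
    rwa [inv_inv] at this
  have c3 : ∀ n ∈ B G, T' * n * T'⁻¹ ∈ B G := fun n hn =>
    conj_B _ (fun μ i => by rw [T'_ell]; exact ell_mem_B _ _) n hn
  have c4 : ∀ n ∈ B G, T'⁻¹ * n * T' ∈ B G := fun n hn => by
    have := conj_B (G := G) T'⁻¹ (fun μ i => by rw [inv_inv, T'_inv_ell]; exact ell_mem_B _ _) n hn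
    rwa [inv_inv] at this
  have c5 : ∀ μ i, (ell μ i : MulAut (Fn G)) ∈ B G := ell_mem_B
  have hcomm : ⁅(T : MulAut (Fn G)), (T' : MulAut (Fn G))⁆ = 1 := by
    rw [commutatorElement_eq_one_iff_mul_comm, T_comm_T']
  have hcomm' : ⁅(T' : MulAut (Fn G)), (T : MulAut (Fn G))⁆ = 1 := by
    rw [commutatorElement_eq_one_iff_mul_comm, T_comm_T']
  apply commutator_closure_le
  · intro x hx n hn
    rcases hx with rfl | rfl | rfl
    · exact ⟨(B G).mul_mem ((B G).mul_mem (c5 _ _) hn) ((B G).inv_mem (c5 _ _)),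
        (B G).mul_mem ((B G).mul_mem ((B G).inv_mem (c5 _ _)) hn) (c5 _ _)⟩
    · exact ⟨c1 n hn, c2 n hn⟩
    · exact ⟨c3 n hn, c4 n hn⟩
  · intro x hx y hy
    rcases hx with rfl | rfl | rfl <;> rcases hy with rfl | rfl | rfl
    · simp
    · rw [commutatorElement_def, mul_assoc, mul_assoc, ← mul_assoc T]
      exact (B G).mul_mem (c5 _ _) (c1 _ ((B G).inv_mem (c5 _ _)))
    · rw [commutatorElement_def, mul_assoc, mul_assoc, ← mul_assoc T']
      exact (B G).mul_mem (c5 _ _) (c3 _ ((B G).inv_mem (c5 _ _)))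
    · rw [commutatorElement_def]
      exact (B G).mul_mem (c1 _ (c5 _ _)) ((B G).inv_mem (c5 _ _))
    · simp
    · rw [hcomm]; exact (B G).one_mem
    · rw [commutatorElement_def]
      exact (B G).mul_mem (c3 _ (c5 _ _)) ((B G).inv_mem (c5 _ _))
    · rw [hcomm']; exact (B G).one_mem
    · simp

/-! ## The vector `v₀` -/

/-- value in `G` of a label -/
def val (γ : ℤ → G) : Option ℤ → G
  | none => 1
  | some μ => γ μ

/-- The product `γ(ω_{n-1}) ⋯ γ(ω_1) γ(ω_0)`. -/
def prodTo (γ : ℤ → G) (ω : Cfg) : ℕ → G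
  | 0 => 1
  | n + 1 => val γ (ω n) * prodTo γ ω n

theorem prodTo_shift (γ : ℤ → G) (ω : Cfg) (n : ℕ) :
    prodTo γ ω (n + 1) = prodTo γ (fun i => ω (i + 1)) n * val γ (ω 0) := by
  induction n with
  | zero => simp [prodTo]
  | succ n ih =>
    rw [prodTo, ih, prodTo, mul_assoc]
    push_cast
    rfl

/-- the support of `v₀` -/
def Good (γ : ℤ → G) (x : Cfg × G) : Prop :=
  (∀ i : ℤ, i < 0 → x.1 i = none) ∧ ∃ N : ℕ, ∀ n : ℕ, N ≤ n → prodTo γ x.1 n = x.2

open Classical in
/-- The vector `v₀`. -/
noncomputable def v0 (γ : ℤ → G) : Fn G := fun x => if Good γ x then -1 else 1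

theorem prodTo_congr (γ : ℤ → G) (ω ω' : Cfg) (n : ℕ) (h : ∀ i : ℕ, ω i = ω' i) :
    prodTo γ ω n = prodTo γ ω' n := by
  induction n with
  | zero => rfl
  | succ n ih => rw [prodTo, prodTo, ih, h]

theorem good_iff (γ : ℤ → G) (h : G) (μ : ℤ) (hμ : γ μ = h⁻¹) (x : Cfg × G) :
    Good γ (rmul h (shiftPos x)) ↔
      x.1 0 = none ∧ Good γ (Function.update x.1 0 (some μ), x.2) := by
  have key : ∀ n, prodTo γ (Function.update x.1 0 (some μ)) (n + 1) =
      prodTo γ (shiftPos x).1 n * h⁻¹ := by
    intro n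
    rw [prodTo_shift, Function.update_self, val, hμ]
    congr 1
    apply prodTo_congr
    intro i
    have : (i : ℤ) + 1 ≠ 0 := by omega
    simp [Function.update_of_ne this, shiftPos]
  constructor
  · rintro ⟨h1, N, hN⟩
    have h1' : ∀ i : ℤ, i < 0 → x.1 (i + 1) = none := h1
    refine ⟨?_, ?_, N + 1, ?_⟩
    · have := h1' (-1) (by norm_num)
      simpa using this
    · intro i hi
      have h2 := h1' (i - 1) (by omega)
      rw [sub_add_cancel] at h2
      show Function.update x.1 0 (some μ) i = none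
      rw [Function.update_of_ne (by omega), h2]
    · intro n hn
      obtain ⟨m, rfl⟩ : ∃ m, n = m + 1 := ⟨n - 1, by omega⟩
      show prodTo γ (Function.update x.1 0 (some μ)) (m + 1) = x.2
      rw [key]
      have h3 : prodTo γ (shiftPos x).1 m = x.2 * h := hN m (by omega)
      rw [h3, mul_inv_cancel_right]
  · rintro ⟨h0, h1, N, hN⟩
    refine ⟨?_, N, ?_⟩
    · intro i hi
      show x.1 (i + 1) = none
      by_cases hi' : i = -1
      · subst hi'; simpa using h0
      · have h2 : Function.update x.1 0 (some μ) (i + 1) = none := h1 (i + 1) (by omega)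
        rwa [Function.update_of_ne (by omega)] at h2
    · intro n hn
      show prodTo γ (shiftPos x).1 n = x.2 * h
      have h3 : prodTo γ (Function.update x.1 0 (some μ)) (n + 1) = x.2 := hN (n + 1) (by omega)
      rw [key] at h3
      rw [← h3, inv_mul_cancel_right]

/-- `G` acts on functions by right translation. -/
def rho : G →* MulAut (Fn G) where
  toFun h := pull (rmul h)
  map_one' := by
    ext f x
    simp [rmul]
  map_mul' h h' := by
    ext f x
    simp [rmul, mul_assoc]

theorem rho_apply (h : G) (f : Fn G) (x : Cfg × G) : rho h f x = f (x.1, x.2 * h) := rfl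

theorem rho_ell (h : G) (μ i : ℤ) : rho h * ell μ i = ell μ i * rho h := rfl

theorem rho_T (h : G) : rho h * T = T * rho h := rfl

theorem rho_T' (h : G) : rho h * T' = T' * rho h := rfl

theorem T_rho_v0 (γ : ℤ → G) (h : G) (μ : ℤ) (hμ : γ μ = h⁻¹) :
    T (rho h (v0 γ)) = ell μ 0 (v0 γ) * v0 γ := by
  classical
  funext x
  have e1 : T (rho h (v0 γ)) x = v0 γ (rmul h (shiftPos x)) := rfl
  have e2 : (ell μ 0 (v0 γ) * v0 γ) x =
      if x.1 0 = none then v0 γ (Function.update x.1 0 (some μ), x.2) else 1 := by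
    rw [Pi.mul_apply, ell_apply, mul_right_comm, Int.units_mul_self, one_mul]
  rw [e1, e2]
  by_cases h0 : x.1 0 = none
  · rw [if_pos h0]
    unfold v0
    have := good_iff γ h μ hμ x
    by_cases hg : Good γ (Function.update x.1 0 (some μ), x.2)
    · rw [if_pos hg, if_pos (this.2 ⟨h0, hg⟩)]
    · rw [if_neg hg, if_neg (fun hh => hg (this.1 hh).2)]
  · rw [if_neg h0]
    unfold v0
    rw [if_neg (fun hh => h0 ((good_iff γ h μ hμ x).1 hh).1)]

theorem ell_mem_Q (μ : ℤ) : (ell μ 0 : MulAut (Fn G)) ∈ Subgroup.closure (gens G) := by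
  have hT' : (T' : MulAut (Fn G)) ∈ Subgroup.closure (gens G) :=
    Subgroup.subset_closure (by simp [gens])
  induction μ with
  | zero => exact Subgroup.subset_closure (by simp [gens])
  | succ n ih =>
    rw [← T'_inv_ell]
    exact Subgroup.mul_mem _ (Subgroup.mul_mem _ (Subgroup.inv_mem _ hT') ih) hT'
  | pred n ih =>
    rw [← T'_ell]
    exact Subgroup.mul_mem _ (Subgroup.mul_mem _ hT' ih) (Subgroup.inv_mem _ hT')

/-- the holomorph -/
abbrev Hol (G : Type*) : Type _ := (Fn G) ⋊[MonoidHom.id (MulAut (Fn G))] MulAut (Fn G)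

/-- the generators of `S` -/
def sgens (γ : ℤ → G) : Set (Hol G) :=
  {SemidirectProduct.inl (v0 γ), SemidirectProduct.inr (ell 0 0), SemidirectProduct.inr T,
    SemidirectProduct.inr T'}

/-- The finitely generated soluble group. -/
def S (γ : ℤ → G) : Subgroup (Hol G) := Subgroup.closure (sgens γ)

theorem S_map (γ : ℤ → G) : (S γ).map SemidirectProduct.rightHom = Subgroup.closure (gens G) := by
  rw [S, MonoidHom.map_closure]
  apply le_antisymm
  · rw [Subgroup.closure_le]
    rintro _ ⟨x, hx, rfl⟩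
    rcases hx with rfl | rfl | rfl | rfl
    · rw [SemidirectProduct.rightHom_inl]; exact Subgroup.one_mem _
    · rw [SemidirectProduct.rightHom_inr]; exact Subgroup.subset_closure (by simp [gens])
    · rw [SemidirectProduct.rightHom_inr]; exact Subgroup.subset_closure (by simp [gens])
    · rw [SemidirectProduct.rightHom_inr]; exact Subgroup.subset_closure (by simp [gens])
  · rw [Subgroup.closure_le]
    rintro x (rfl | rfl | rfl)
    · exact Subgroup.subset_closure ⟨SemidirectProduct.inr (ell 0 0), by simp [sgens], by simp⟩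
    · exact Subgroup.subset_closure ⟨SemidirectProduct.inr T, by simp [sgens], by simp⟩
    · exact Subgroup.subset_closure ⟨SemidirectProduct.inr T', by simp [sgens], by simp⟩

theorem S_derived (γ : ℤ → G) : derivedSeries (S γ) 3 = ⊥ := by
  apply derivedSeries_three (S γ) (B G)
  · rw [S_map]; exact Q_comm
  · exact B_comm

theorem inr_mem_S (γ : ℤ → G) (q : MulAut (Fn G)) (hq : q ∈ Subgroup.closure (gens G)) :
    (SemidirectProduct.inr q : Hol G) ∈ S γ := by
  have h : Subgroup.closure (gens G) ≤ (S γ).comap SemidirectProduct.inr := by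
    rw [Subgroup.closure_le]
    rintro x (rfl | rfl | rfl)
    · exact Subgroup.subset_closure (by simp [sgens])
    · exact Subgroup.subset_closure (by simp [sgens])
    · exact Subgroup.subset_closure (by simp [sgens])
  exact h hq

theorem inl_mem_S (γ : ℤ → G) (q : MulAut (Fn G)) (hq : q ∈ Subgroup.closure (gens G))
    (w : Fn G) (hw : (SemidirectProduct.inl w : Hol G) ∈ S γ) :
    (SemidirectProduct.inl (q w) : Hol G) ∈ S γ := by
  have : (SemidirectProduct.inl (q w) : Hol G) = SemidirectProduct.inr q *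
      SemidirectProduct.inl w * SemidirectProduct.inr q⁻¹ := by
    rw [← SemidirectProduct.inl_aut]; rfl
  rw [this]
  exact (S γ).mul_mem ((S γ).mul_mem (inr_mem_S γ q hq) hw)
    (inr_mem_S γ _ (Subgroup.inv_mem _ hq))

theorem conj_mem_S (γ : ℤ → G) (hγ : Function.Surjective γ) (h : G) (x : Hol G) (hx : x ∈ S γ) :
    (SemidirectProduct.inr (rho h) : Hol G) * x * (SemidirectProduct.inr (rho h))⁻¹ ∈ S γ := by
  have hh : S γ ≤ (S γ).comap
      (MulAut.conj (SemidirectProduct.inr (rho h) : Hol G)).toMonoidHom := by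
    rw [S, Subgroup.closure_le]
    have com : ∀ q : MulAut (Fn G), rho h * q = q * rho h →
        (SemidirectProduct.inr (rho h) : Hol G) * SemidirectProduct.inr q *
          (SemidirectProduct.inr (rho h))⁻¹ = SemidirectProduct.inr q := by
      intro q hq
      rw [← map_mul, hq, map_mul, mul_inv_cancel_right]
    rintro x (rfl | rfl | rfl | rfl)
    · show (SemidirectProduct.inr (rho h) : Hol G) * SemidirectProduct.inl (v0 γ) *
          (SemidirectProduct.inr (rho h))⁻¹ ∈ S γ
      rw [← map_inv, ← SemidirectProduct.inl_aut]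
      show (SemidirectProduct.inl (rho h (v0 γ)) : Hol G) ∈ S γ
      obtain ⟨μ, hμ⟩ := hγ h⁻¹
      have e := T_rho_v0 γ h μ hμ
      have e' : rho h (v0 γ) = T⁻¹ (ell μ 0 (v0 γ) * v0 γ) := by
        rw [← e]; simp [T]
      rw [e']
      have hT : (T : MulAut (Fn G)) ∈ Subgroup.closure (gens G) :=
        Subgroup.subset_closure (by simp [gens])
      have hv : (SemidirectProduct.inl (v0 γ) : Hol G) ∈ S γ :=
        Subgroup.subset_closure (by simp [sgens])
      apply inl_mem_S γ _ (Subgroup.inv_mem _ hT)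
      rw [map_mul]
      exact (S γ).mul_mem (inl_mem_S γ _ (ell_mem_Q μ) _ hv) hv
    · show (SemidirectProduct.inr (rho h) : Hol G) * SemidirectProduct.inr (ell 0 0) *
          (SemidirectProduct.inr (rho h))⁻¹ ∈ S γ
      rw [com _ (rho_ell h 0 0)]
      exact Subgroup.subset_closure (by simp [sgens])
    · show (SemidirectProduct.inr (rho h) : Hol G) * SemidirectProduct.inr T *
          (SemidirectProduct.inr (rho h))⁻¹ ∈ S γ
      rw [com _ (rho_T h)]
      exact Subgroup.subset_closure (by simp [sgens])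
    · show (SemidirectProduct.inr (rho h) : Hol G) * SemidirectProduct.inr T' *
          (SemidirectProduct.inr (rho h))⁻¹ ∈ S γ
      rw [com _ (rho_T' h)]
      exact Subgroup.subset_closure (by simp [sgens])
  exact hh hx

/-- The action of `G` on `S` by automorphisms. -/
noncomputable def act (γ : ℤ → G) (hγ : Function.Surjective γ) : G →* MulAut (S γ) where
  toFun h :=
    { toFun := fun x => ⟨SemidirectProduct.inr (rho h) * x.1 * (SemidirectProduct.inr (rho h))⁻¹,
        conj_mem_S γ hγ h x.1 x.2⟩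
      invFun := fun x => ⟨SemidirectProduct.inr (rho h⁻¹) * x.1 *
        (SemidirectProduct.inr (rho h⁻¹))⁻¹, conj_mem_S γ hγ h⁻¹ x.1 x.2⟩
      left_inv := by
        intro x
        apply Subtype.ext
        simp only [map_inv]
        group
      right_inv := by
        intro x
        apply Subtype.ext
        simp only [map_inv]
        group
      map_mul' := by
        intro x y
        apply Subtype.ext
        simp only [Subgroup.coe_mul]
        group }
  map_one' := by
    ext1 x
    apply Subtype.ext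
    simp
  map_mul' h h' := by
    ext1 x
    apply Subtype.ext
    simp only [MulEquiv.coe_mk, Equiv.coe_fn_mk, MulAut.mul_apply, map_mul, mul_inv_rev, mul_assoc]

theorem act_injective (γ : ℤ → G) (hγ : Function.Surjective γ) :
    Function.Injective (act γ hγ) := by
  rw [injective_iff_map_eq_one]
  intro h hh
  have hv : (SemidirectProduct.inl (v0 γ) : Hol G) ∈ S γ :=
    Subgroup.subset_closure (by simp [sgens])
  have h1 : (act γ hγ h ⟨_, hv⟩).1 = (SemidirectProduct.inl (v0 γ) : Hol G) := by
    rw [hh]; rfl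
  have h2 : (act γ hγ h ⟨_, hv⟩).1 = (SemidirectProduct.inl (rho h (v0 γ)) : Hol G) := by
    show (SemidirectProduct.inr (rho h) : Hol G) * SemidirectProduct.inl (v0 γ) *
          (SemidirectProduct.inr (rho h))⁻¹ = _
    rw [← map_inv, ← SemidirectProduct.inl_aut]
    rfl
  rw [h2] at h1
  have h3 : rho h (v0 γ) = v0 γ := SemidirectProduct.inl_injective h1
  have h4 : rho h (v0 γ) ((fun _ => none), 1) = v0 γ ((fun _ => none), 1) := by rw [h3]
  rw [rho_apply] at h4
  have hp : ∀ n, prodTo γ (fun _ => none) n = 1 := by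
    intro n
    induction n with
    | zero => rfl
    | succ n ih => rw [prodTo, ih]; simp [val]
  have g1 : Good γ ((fun _ => none), (1 : G)) := ⟨fun _ _ => rfl, 0, fun n _ => hp n⟩
  have g2 : Good γ ((fun _ => none), 1 * h) := by
    by_contra hc
    simp only [v0] at h4
    rw [if_pos g1, if_neg hc] at h4
    exact absurd h4 (by decide)
  obtain ⟨-, N, hN⟩ := g2
  have := hN N le_rfl
  rw [hp] at this
  simpa using this.symm

/-- **Main theorem.** Every countable group acts faithfully by automorphisms on a finitely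
generated soluble group of derived length at most `3`. -/
theorem main (G : Type*) [Group G] [Countable G] :
    ∃ S : Subgroup (Hol G), S.FG ∧ derivedSeries S 3 = ⊥ ∧
      ∃ f : G →* MulAut S, Function.Injective f := by
  obtain ⟨e, he⟩ := exists_surjective_nat G
  let γ : ℤ → G := fun z => e z.toNat
  have hγ : Function.Surjective γ := by
    intro g
    obtain ⟨n, hn⟩ := he g
    exact ⟨n, by simpa [γ] using hn⟩
  refine ⟨S γ, ?_, S_derived γ, act γ hγ, act_injective γ hγ⟩
  rw [Subgroup.fg_iff]
  refine ⟨sgens γ, rfl, ?_⟩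
  simp [sgens]

end Pool.Agent.Helper40.SolAct
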